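import Pool.Agent.X68.TF.Tab0

set_option autoImplicit false
set_option maxRecDepth 100000

namespace Pool.Agent.X68.TF

def mem0 (k : Nat) : Bool := memT k tab0

theorem c0_0 : treeOK 20 mem0 t0_0 = true := by decide +kernel
theorem c0_1 : treeOK 20 mem0 t0_1 = true := by decide +kernel
theorem c0_2 : treeOK 20 mem0 t0_2 = true := treeOK_nd (by decide +kernel) c0_0 c0_1
theorem c0_3 : treeOK 20 mem0 t0_3 = true := by decide +kernel
theorem c0_4 : treeOK 20 mem0 t0_4 = true := by decide +kernel
theorem c0_5 : treeOK 20 mem0 t0_5 = true := treeOK_nd (by decide +kernel) c0_3 c0_4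
theorem c0_6 : treeOK 20 mem0 t0_6 = true := treeOK_nd (by decide +kernel) c0_2 c0_5
theorem c0_7 : treeOK 20 mem0 t0_7 = true := by decide +kernel
theorem c0_8 : treeOK 20 mem0 t0_8 = true := by decide +kernel
theorem c0_9 : treeOK 20 mem0 t0_9 = true := treeOK_nd (by decide +kernel) c0_7 c0_8
theorem c0_10 : treeOK 20 mem0 t0_10 = true := by decide +kernel
theorem c0_11 : treeOK 20 mem0 t0_11 = true := by decide +kernel
theorem c0_12 : treeOK 20 mem0 t0_12 = true := treeOK_nd (by decide +kernel) c0_10 c0_11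
theorem c0_13 : treeOK 20 mem0 t0_13 = true := treeOK_nd (by decide +kernel) c0_9 c0_12
theorem c0_14 : treeOK 20 mem0 t0_14 = true := treeOK_nd (by decide +kernel) c0_6 c0_13
theorem c0_15 : treeOK 20 mem0 t0_15 = true := by decide +kernel
theorem c0_16 : treeOK 20 mem0 t0_16 = true := by decide +kernel
theorem c0_17 : treeOK 20 mem0 t0_17 = true := treeOK_nd (by decide +kernel) c0_15 c0_16
theorem c0_18 : treeOK 20 mem0 t0_18 = true := by decide +kernel
theorem c0_19 : treeOK 20 mem0 t0_19 = true := by decide +kernel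
theorem c0_20 : treeOK 20 mem0 t0_20 = true := treeOK_nd (by decide +kernel) c0_18 c0_19
theorem c0_21 : treeOK 20 mem0 t0_21 = true := treeOK_nd (by decide +kernel) c0_17 c0_20
theorem c0_22 : treeOK 20 mem0 t0_22 = true := by decide +kernel
theorem c0_23 : treeOK 20 mem0 t0_23 = true := by decide +kernel
theorem c0_24 : treeOK 20 mem0 t0_24 = true := treeOK_nd (by decide +kernel) c0_22 c0_23
theorem c0_25 : treeOK 20 mem0 t0_25 = true := by decide +kernel
theorem c0_26 : treeOK 20 mem0 t0_26 = true := by decide +kernel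
theorem c0_27 : treeOK 20 mem0 t0_27 = true := treeOK_nd (by decide +kernel) c0_25 c0_26
theorem c0_28 : treeOK 20 mem0 t0_28 = true := treeOK_nd (by decide +kernel) c0_24 c0_27
theorem c0_29 : treeOK 20 mem0 t0_29 = true := treeOK_nd (by decide +kernel) c0_21 c0_28
theorem c0_30 : treeOK 20 mem0 t0_30 = true := treeOK_nd (by decide +kernel) c0_14 c0_29
theorem c0_31 : treeOK 20 mem0 t0_31 = true := by decide +kernel
theorem c0_32 : treeOK 20 mem0 t0_32 = true := by decide +kernel
theorem c0_33 : treeOK 20 mem0 t0_33 = true := treeOK_nd (by decide +kernel) c0_31 c0_32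
theorem c0_34 : treeOK 20 mem0 t0_34 = true := by decide +kernel
theorem c0_35 : treeOK 20 mem0 t0_35 = true := by decide +kernel
theorem c0_36 : treeOK 20 mem0 t0_36 = true := treeOK_nd (by decide +kernel) c0_34 c0_35
theorem c0_37 : treeOK 20 mem0 t0_37 = true := treeOK_nd (by decide +kernel) c0_33 c0_36
theorem c0_38 : treeOK 20 mem0 t0_38 = true := by decide +kernel
theorem c0_39 : treeOK 20 mem0 t0_39 = true := by decide +kernel
theorem c0_40 : treeOK 20 mem0 t0_40 = true := treeOK_nd (by decide +kernel) c0_38 c0_39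
theorem c0_41 : treeOK 20 mem0 t0_41 = true := by decide +kernel
theorem c0_42 : treeOK 20 mem0 t0_42 = true := by decide +kernel
theorem c0_43 : treeOK 20 mem0 t0_43 = true := treeOK_nd (by decide +kernel) c0_41 c0_42
theorem c0_44 : treeOK 20 mem0 t0_44 = true := treeOK_nd (by decide +kernel) c0_40 c0_43
theorem c0_45 : treeOK 20 mem0 t0_45 = true := treeOK_nd (by decide +kernel) c0_37 c0_44
theorem c0_46 : treeOK 20 mem0 t0_46 = true := by decide +kernel
theorem c0_47 : treeOK 20 mem0 t0_47 = true := by decide +kernel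
theorem c0_48 : treeOK 20 mem0 t0_48 = true := treeOK_nd (by decide +kernel) c0_46 c0_47
theorem c0_49 : treeOK 20 mem0 t0_49 = true := by decide +kernel
theorem c0_50 : treeOK 20 mem0 t0_50 = true := by decide +kernel
theorem c0_51 : treeOK 20 mem0 t0_51 = true := treeOK_nd (by decide +kernel) c0_49 c0_50
theorem c0_52 : treeOK 20 mem0 t0_52 = true := treeOK_nd (by decide +kernel) c0_48 c0_51
theorem c0_53 : treeOK 20 mem0 t0_53 = true := by decide +kernel
theorem c0_54 : treeOK 20 mem0 t0_54 = true := by decide +kernel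
theorem c0_55 : treeOK 20 mem0 t0_55 = true := treeOK_nd (by decide +kernel) c0_53 c0_54
theorem c0_56 : treeOK 20 mem0 t0_56 = true := by decide +kernel
theorem c0_57 : treeOK 20 mem0 t0_57 = true := by decide +kernel
theorem c0_58 : treeOK 20 mem0 t0_58 = true := treeOK_nd (by decide +kernel) c0_56 c0_57
theorem c0_59 : treeOK 20 mem0 t0_59 = true := treeOK_nd (by decide +kernel) c0_55 c0_58
theorem c0_60 : treeOK 20 mem0 t0_60 = true := treeOK_nd (by decide +kernel) c0_52 c0_59
theorem c0_61 : treeOK 20 mem0 t0_61 = true := treeOK_nd (by decide +kernel) c0_45 c0_60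
theorem c0_62 : treeOK 20 mem0 t0_62 = true := treeOK_nd (by decide +kernel) c0_30 c0_61

theorem chk0 : treeOK 20 mem0 tab0 = true := c0_62

end Pool.Agent.X68.TF
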