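import Pool.Agent.X68.TF.Tab1
import Pool.Agent.X68.TF.Tab0

set_option autoImplicit false
set_option maxRecDepth 100000

namespace Pool.Agent.X68.TF

def mem1 (k : Nat) : Bool := memT k tab1 || memT k tab0

theorem c1_0 : treeOK 20 mem1 t1_0 = true := by decide +kernel
theorem c1_1 : treeOK 20 mem1 t1_1 = true := by decide +kernel
theorem c1_2 : treeOK 20 mem1 t1_2 = true := treeOK_nd (by decide +kernel) c1_0 c1_1
theorem c1_3 : treeOK 20 mem1 t1_3 = true := by decide +kernel
theorem c1_4 : treeOK 20 mem1 t1_4 = true := by decide +kernel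
theorem c1_5 : treeOK 20 mem1 t1_5 = true := treeOK_nd (by decide +kernel) c1_3 c1_4
theorem c1_6 : treeOK 20 mem1 t1_6 = true := treeOK_nd (by decide +kernel) c1_2 c1_5
theorem c1_7 : treeOK 20 mem1 t1_7 = true := by decide +kernel
theorem c1_8 : treeOK 20 mem1 t1_8 = true := by decide +kernel
theorem c1_9 : treeOK 20 mem1 t1_9 = true := treeOK_nd (by decide +kernel) c1_7 c1_8
theorem c1_10 : treeOK 20 mem1 t1_10 = true := by decide +kernel
theorem c1_11 : treeOK 20 mem1 t1_11 = true := by decide +kernel
theorem c1_12 : treeOK 20 mem1 t1_12 = true := treeOK_nd (by decide +kernel) c1_10 c1_11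
theorem c1_13 : treeOK 20 mem1 t1_13 = true := treeOK_nd (by decide +kernel) c1_9 c1_12
theorem c1_14 : treeOK 20 mem1 t1_14 = true := treeOK_nd (by decide +kernel) c1_6 c1_13
theorem c1_15 : treeOK 20 mem1 t1_15 = true := by decide +kernel
theorem c1_16 : treeOK 20 mem1 t1_16 = true := by decide +kernel
theorem c1_17 : treeOK 20 mem1 t1_17 = true := treeOK_nd (by decide +kernel) c1_15 c1_16
theorem c1_18 : treeOK 20 mem1 t1_18 = true := by decide +kernel
theorem c1_19 : treeOK 20 mem1 t1_19 = true := by decide +kernel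
theorem c1_20 : treeOK 20 mem1 t1_20 = true := treeOK_nd (by decide +kernel) c1_18 c1_19
theorem c1_21 : treeOK 20 mem1 t1_21 = true := treeOK_nd (by decide +kernel) c1_17 c1_20
theorem c1_22 : treeOK 20 mem1 t1_22 = true := by decide +kernel
theorem c1_23 : treeOK 20 mem1 t1_23 = true := by decide +kernel
theorem c1_24 : treeOK 20 mem1 t1_24 = true := treeOK_nd (by decide +kernel) c1_22 c1_23
theorem c1_25 : treeOK 20 mem1 t1_25 = true := by decide +kernel
theorem c1_26 : treeOK 20 mem1 t1_26 = true := by decide +kernel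
theorem c1_27 : treeOK 20 mem1 t1_27 = true := treeOK_nd (by decide +kernel) c1_25 c1_26
theorem c1_28 : treeOK 20 mem1 t1_28 = true := treeOK_nd (by decide +kernel) c1_24 c1_27
theorem c1_29 : treeOK 20 mem1 t1_29 = true := treeOK_nd (by decide +kernel) c1_21 c1_28
theorem c1_30 : treeOK 20 mem1 t1_30 = true := treeOK_nd (by decide +kernel) c1_14 c1_29
theorem c1_31 : treeOK 20 mem1 t1_31 = true := by decide +kernel
theorem c1_32 : treeOK 20 mem1 t1_32 = true := by decide +kernel
theorem c1_33 : treeOK 20 mem1 t1_33 = true := treeOK_nd (by decide +kernel) c1_31 c1_32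
theorem c1_34 : treeOK 20 mem1 t1_34 = true := by decide +kernel
theorem c1_35 : treeOK 20 mem1 t1_35 = true := by decide +kernel
theorem c1_36 : treeOK 20 mem1 t1_36 = true := treeOK_nd (by decide +kernel) c1_34 c1_35
theorem c1_37 : treeOK 20 mem1 t1_37 = true := treeOK_nd (by decide +kernel) c1_33 c1_36
theorem c1_38 : treeOK 20 mem1 t1_38 = true := by decide +kernel
theorem c1_39 : treeOK 20 mem1 t1_39 = true := by decide +kernel
theorem c1_40 : treeOK 20 mem1 t1_40 = true := treeOK_nd (by decide +kernel) c1_38 c1_39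
theorem c1_41 : treeOK 20 mem1 t1_41 = true := by decide +kernel
theorem c1_42 : treeOK 20 mem1 t1_42 = true := by decide +kernel
theorem c1_43 : treeOK 20 mem1 t1_43 = true := treeOK_nd (by decide +kernel) c1_41 c1_42
theorem c1_44 : treeOK 20 mem1 t1_44 = true := treeOK_nd (by decide +kernel) c1_40 c1_43
theorem c1_45 : treeOK 20 mem1 t1_45 = true := treeOK_nd (by decide +kernel) c1_37 c1_44
theorem c1_46 : treeOK 20 mem1 t1_46 = true := by decide +kernel
theorem c1_47 : treeOK 20 mem1 t1_47 = true := by decide +kernel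
theorem c1_48 : treeOK 20 mem1 t1_48 = true := treeOK_nd (by decide +kernel) c1_46 c1_47
theorem c1_49 : treeOK 20 mem1 t1_49 = true := by decide +kernel
theorem c1_50 : treeOK 20 mem1 t1_50 = true := by decide +kernel
theorem c1_51 : treeOK 20 mem1 t1_51 = true := treeOK_nd (by decide +kernel) c1_49 c1_50
theorem c1_52 : treeOK 20 mem1 t1_52 = true := treeOK_nd (by decide +kernel) c1_48 c1_51
theorem c1_53 : treeOK 20 mem1 t1_53 = true := by decide +kernel
theorem c1_54 : treeOK 20 mem1 t1_54 = true := by decide +kernel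
theorem c1_55 : treeOK 20 mem1 t1_55 = true := treeOK_nd (by decide +kernel) c1_53 c1_54
theorem c1_56 : treeOK 20 mem1 t1_56 = true := by decide +kernel
theorem c1_57 : treeOK 20 mem1 t1_57 = true := by decide +kernel
theorem c1_58 : treeOK 20 mem1 t1_58 = true := treeOK_nd (by decide +kernel) c1_56 c1_57
theorem c1_59 : treeOK 20 mem1 t1_59 = true := treeOK_nd (by decide +kernel) c1_55 c1_58
theorem c1_60 : treeOK 20 mem1 t1_60 = true := treeOK_nd (by decide +kernel) c1_52 c1_59
theorem c1_61 : treeOK 20 mem1 t1_61 = true := treeOK_nd (by decide +kernel) c1_45 c1_60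
theorem c1_62 : treeOK 20 mem1 t1_62 = true := treeOK_nd (by decide +kernel) c1_30 c1_61

theorem chk1 : treeOK 20 mem1 tab1 = true := c1_62

end Pool.Agent.X68.TF
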