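import Pool.Agent.X68.TF.Tab2
import Pool.Agent.X68.TF.Tab1

set_option autoImplicit false
set_option maxRecDepth 100000

namespace Pool.Agent.X68.TF

def mem2 (k : Nat) : Bool := memT k tab2 || memT k tab1

theorem c2_0 : treeOK 20 mem2 t2_0 = true := by decide +kernel
theorem c2_1 : treeOK 20 mem2 t2_1 = true := by decide +kernel
theorem c2_2 : treeOK 20 mem2 t2_2 = true := treeOK_nd (by decide +kernel) c2_0 c2_1
theorem c2_3 : treeOK 20 mem2 t2_3 = true := by decide +kernel
theorem c2_4 : treeOK 20 mem2 t2_4 = true := by decide +kernel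
theorem c2_5 : treeOK 20 mem2 t2_5 = true := treeOK_nd (by decide +kernel) c2_3 c2_4
theorem c2_6 : treeOK 20 mem2 t2_6 = true := treeOK_nd (by decide +kernel) c2_2 c2_5
theorem c2_7 : treeOK 20 mem2 t2_7 = true := by decide +kernel
theorem c2_8 : treeOK 20 mem2 t2_8 = true := by decide +kernel
theorem c2_9 : treeOK 20 mem2 t2_9 = true := treeOK_nd (by decide +kernel) c2_7 c2_8
theorem c2_10 : treeOK 20 mem2 t2_10 = true := by decide +kernel
theorem c2_11 : treeOK 20 mem2 t2_11 = true := by decide +kernel
theorem c2_12 : treeOK 20 mem2 t2_12 = true := treeOK_nd (by decide +kernel) c2_10 c2_11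
theorem c2_13 : treeOK 20 mem2 t2_13 = true := treeOK_nd (by decide +kernel) c2_9 c2_12
theorem c2_14 : treeOK 20 mem2 t2_14 = true := treeOK_nd (by decide +kernel) c2_6 c2_13
theorem c2_15 : treeOK 20 mem2 t2_15 = true := by decide +kernel
theorem c2_16 : treeOK 20 mem2 t2_16 = true := by decide +kernel
theorem c2_17 : treeOK 20 mem2 t2_17 = true := treeOK_nd (by decide +kernel) c2_15 c2_16
theorem c2_18 : treeOK 20 mem2 t2_18 = true := by decide +kernel
theorem c2_19 : treeOK 20 mem2 t2_19 = true := by decide +kernel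
theorem c2_20 : treeOK 20 mem2 t2_20 = true := treeOK_nd (by decide +kernel) c2_18 c2_19
theorem c2_21 : treeOK 20 mem2 t2_21 = true := treeOK_nd (by decide +kernel) c2_17 c2_20
theorem c2_22 : treeOK 20 mem2 t2_22 = true := by decide +kernel
theorem c2_23 : treeOK 20 mem2 t2_23 = true := by decide +kernel
theorem c2_24 : treeOK 20 mem2 t2_24 = true := treeOK_nd (by decide +kernel) c2_22 c2_23
theorem c2_25 : treeOK 20 mem2 t2_25 = true := by decide +kernel
theorem c2_26 : treeOK 20 mem2 t2_26 = true := by decide +kernel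
theorem c2_27 : treeOK 20 mem2 t2_27 = true := treeOK_nd (by decide +kernel) c2_25 c2_26
theorem c2_28 : treeOK 20 mem2 t2_28 = true := treeOK_nd (by decide +kernel) c2_24 c2_27
theorem c2_29 : treeOK 20 mem2 t2_29 = true := treeOK_nd (by decide +kernel) c2_21 c2_28
theorem c2_30 : treeOK 20 mem2 t2_30 = true := treeOK_nd (by decide +kernel) c2_14 c2_29
theorem c2_31 : treeOK 20 mem2 t2_31 = true := by decide +kernel
theorem c2_32 : treeOK 20 mem2 t2_32 = true := by decide +kernel
theorem c2_33 : treeOK 20 mem2 t2_33 = true := treeOK_nd (by decide +kernel) c2_31 c2_32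
theorem c2_34 : treeOK 20 mem2 t2_34 = true := by decide +kernel
theorem c2_35 : treeOK 20 mem2 t2_35 = true := by decide +kernel
theorem c2_36 : treeOK 20 mem2 t2_36 = true := treeOK_nd (by decide +kernel) c2_34 c2_35
theorem c2_37 : treeOK 20 mem2 t2_37 = true := treeOK_nd (by decide +kernel) c2_33 c2_36
theorem c2_38 : treeOK 20 mem2 t2_38 = true := by decide +kernel
theorem c2_39 : treeOK 20 mem2 t2_39 = true := by decide +kernel
theorem c2_40 : treeOK 20 mem2 t2_40 = true := treeOK_nd (by decide +kernel) c2_38 c2_39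
theorem c2_41 : treeOK 20 mem2 t2_41 = true := by decide +kernel
theorem c2_42 : treeOK 20 mem2 t2_42 = true := by decide +kernel
theorem c2_43 : treeOK 20 mem2 t2_43 = true := treeOK_nd (by decide +kernel) c2_41 c2_42
theorem c2_44 : treeOK 20 mem2 t2_44 = true := treeOK_nd (by decide +kernel) c2_40 c2_43
theorem c2_45 : treeOK 20 mem2 t2_45 = true := treeOK_nd (by decide +kernel) c2_37 c2_44
theorem c2_46 : treeOK 20 mem2 t2_46 = true := by decide +kernel
theorem c2_47 : treeOK 20 mem2 t2_47 = true := by decide +kernel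
theorem c2_48 : treeOK 20 mem2 t2_48 = true := treeOK_nd (by decide +kernel) c2_46 c2_47
theorem c2_49 : treeOK 20 mem2 t2_49 = true := by decide +kernel
theorem c2_50 : treeOK 20 mem2 t2_50 = true := by decide +kernel
theorem c2_51 : treeOK 20 mem2 t2_51 = true := treeOK_nd (by decide +kernel) c2_49 c2_50
theorem c2_52 : treeOK 20 mem2 t2_52 = true := treeOK_nd (by decide +kernel) c2_48 c2_51
theorem c2_53 : treeOK 20 mem2 t2_53 = true := by decide +kernel
theorem c2_54 : treeOK 20 mem2 t2_54 = true := by decide +kernel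
theorem c2_55 : treeOK 20 mem2 t2_55 = true := treeOK_nd (by decide +kernel) c2_53 c2_54
theorem c2_56 : treeOK 20 mem2 t2_56 = true := by decide +kernel
theorem c2_57 : treeOK 20 mem2 t2_57 = true := by decide +kernel
theorem c2_58 : treeOK 20 mem2 t2_58 = true := treeOK_nd (by decide +kernel) c2_56 c2_57
theorem c2_59 : treeOK 20 mem2 t2_59 = true := treeOK_nd (by decide +kernel) c2_55 c2_58
theorem c2_60 : treeOK 20 mem2 t2_60 = true := treeOK_nd (by decide +kernel) c2_52 c2_59
theorem c2_61 : treeOK 20 mem2 t2_61 = true := treeOK_nd (by decide +kernel) c2_45 c2_60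
theorem c2_62 : treeOK 20 mem2 t2_62 = true := treeOK_nd (by decide +kernel) c2_30 c2_61
theorem c2_63 : treeOK 20 mem2 t2_63 = true := by decide +kernel
theorem c2_64 : treeOK 20 mem2 t2_64 = true := by decide +kernel
theorem c2_65 : treeOK 20 mem2 t2_65 = true := treeOK_nd (by decide +kernel) c2_63 c2_64
theorem c2_66 : treeOK 20 mem2 t2_66 = true := by decide +kernel
theorem c2_67 : treeOK 20 mem2 t2_67 = true := by decide +kernel
theorem c2_68 : treeOK 20 mem2 t2_68 = true := treeOK_nd (by decide +kernel) c2_66 c2_67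
theorem c2_69 : treeOK 20 mem2 t2_69 = true := treeOK_nd (by decide +kernel) c2_65 c2_68
theorem c2_70 : treeOK 20 mem2 t2_70 = true := by decide +kernel
theorem c2_71 : treeOK 20 mem2 t2_71 = true := by decide +kernel
theorem c2_72 : treeOK 20 mem2 t2_72 = true := treeOK_nd (by decide +kernel) c2_70 c2_71
theorem c2_73 : treeOK 20 mem2 t2_73 = true := by decide +kernel
theorem c2_74 : treeOK 20 mem2 t2_74 = true := by decide +kernel
theorem c2_75 : treeOK 20 mem2 t2_75 = true := treeOK_nd (by decide +kernel) c2_73 c2_74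
theorem c2_76 : treeOK 20 mem2 t2_76 = true := treeOK_nd (by decide +kernel) c2_72 c2_75
theorem c2_77 : treeOK 20 mem2 t2_77 = true := treeOK_nd (by decide +kernel) c2_69 c2_76
theorem c2_78 : treeOK 20 mem2 t2_78 = true := by decide +kernel
theorem c2_79 : treeOK 20 mem2 t2_79 = true := by decide +kernel
theorem c2_80 : treeOK 20 mem2 t2_80 = true := treeOK_nd (by decide +kernel) c2_78 c2_79
theorem c2_81 : treeOK 20 mem2 t2_81 = true := by decide +kernel
theorem c2_82 : treeOK 20 mem2 t2_82 = true := by decide +kernel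
theorem c2_83 : treeOK 20 mem2 t2_83 = true := treeOK_nd (by decide +kernel) c2_81 c2_82
theorem c2_84 : treeOK 20 mem2 t2_84 = true := treeOK_nd (by decide +kernel) c2_80 c2_83
theorem c2_85 : treeOK 20 mem2 t2_85 = true := by decide +kernel
theorem c2_86 : treeOK 20 mem2 t2_86 = true := by decide +kernel
theorem c2_87 : treeOK 20 mem2 t2_87 = true := treeOK_nd (by decide +kernel) c2_85 c2_86
theorem c2_88 : treeOK 20 mem2 t2_88 = true := by decide +kernel
theorem c2_89 : treeOK 20 mem2 t2_89 = true := by decide +kernel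
theorem c2_90 : treeOK 20 mem2 t2_90 = true := treeOK_nd (by decide +kernel) c2_88 c2_89
theorem c2_91 : treeOK 20 mem2 t2_91 = true := treeOK_nd (by decide +kernel) c2_87 c2_90
theorem c2_92 : treeOK 20 mem2 t2_92 = true := treeOK_nd (by decide +kernel) c2_84 c2_91
theorem c2_93 : treeOK 20 mem2 t2_93 = true := treeOK_nd (by decide +kernel) c2_77 c2_92
theorem c2_94 : treeOK 20 mem2 t2_94 = true := by decide +kernel
theorem c2_95 : treeOK 20 mem2 t2_95 = true := by decide +kernel
theorem c2_96 : treeOK 20 mem2 t2_96 = true := treeOK_nd (by decide +kernel) c2_94 c2_95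
theorem c2_97 : treeOK 20 mem2 t2_97 = true := by decide +kernel
theorem c2_98 : treeOK 20 mem2 t2_98 = true := by decide +kernel
theorem c2_99 : treeOK 20 mem2 t2_99 = true := treeOK_nd (by decide +kernel) c2_97 c2_98
theorem c2_100 : treeOK 20 mem2 t2_100 = true := treeOK_nd (by decide +kernel) c2_96 c2_99
theorem c2_101 : treeOK 20 mem2 t2_101 = true := by decide +kernel
theorem c2_102 : treeOK 20 mem2 t2_102 = true := by decide +kernel
theorem c2_103 : treeOK 20 mem2 t2_103 = true := treeOK_nd (by decide +kernel) c2_101 c2_102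
theorem c2_104 : treeOK 20 mem2 t2_104 = true := by decide +kernel
theorem c2_105 : treeOK 20 mem2 t2_105 = true := by decide +kernel
theorem c2_106 : treeOK 20 mem2 t2_106 = true := treeOK_nd (by decide +kernel) c2_104 c2_105
theorem c2_107 : treeOK 20 mem2 t2_107 = true := treeOK_nd (by decide +kernel) c2_103 c2_106
theorem c2_108 : treeOK 20 mem2 t2_108 = true := treeOK_nd (by decide +kernel) c2_100 c2_107
theorem c2_109 : treeOK 20 mem2 t2_109 = true := by decide +kernel
theorem c2_110 : treeOK 20 mem2 t2_110 = true := by decide +kernel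
theorem c2_111 : treeOK 20 mem2 t2_111 = true := treeOK_nd (by decide +kernel) c2_109 c2_110
theorem c2_112 : treeOK 20 mem2 t2_112 = true := by decide +kernel
theorem c2_113 : treeOK 20 mem2 t2_113 = true := by decide +kernel
theorem c2_114 : treeOK 20 mem2 t2_114 = true := treeOK_nd (by decide +kernel) c2_112 c2_113
theorem c2_115 : treeOK 20 mem2 t2_115 = true := treeOK_nd (by decide +kernel) c2_111 c2_114
theorem c2_116 : treeOK 20 mem2 t2_116 = true := by decide +kernel
theorem c2_117 : treeOK 20 mem2 t2_117 = true := by decide +kernel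
theorem c2_118 : treeOK 20 mem2 t2_118 = true := treeOK_nd (by decide +kernel) c2_116 c2_117
theorem c2_119 : treeOK 20 mem2 t2_119 = true := by decide +kernel
theorem c2_120 : treeOK 20 mem2 t2_120 = true := by decide +kernel
theorem c2_121 : treeOK 20 mem2 t2_121 = true := treeOK_nd (by decide +kernel) c2_119 c2_120
theorem c2_122 : treeOK 20 mem2 t2_122 = true := treeOK_nd (by decide +kernel) c2_118 c2_121
theorem c2_123 : treeOK 20 mem2 t2_123 = true := treeOK_nd (by decide +kernel) c2_115 c2_122
theorem c2_124 : treeOK 20 mem2 t2_124 = true := treeOK_nd (by decide +kernel) c2_108 c2_123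
theorem c2_125 : treeOK 20 mem2 t2_125 = true := treeOK_nd (by decide +kernel) c2_93 c2_124
theorem c2_126 : treeOK 20 mem2 t2_126 = true := treeOK_nd (by decide +kernel) c2_62 c2_125

theorem chk2 : treeOK 20 mem2 tab2 = true := c2_126

end Pool.Agent.X68.TF
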