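import Pool.Agent.X68.TF.Tab3
import Pool.Agent.X68.TF.Tab2

set_option autoImplicit false
set_option maxRecDepth 100000

namespace Pool.Agent.X68.TF

def mem3 (k : Nat) : Bool := memT k tab3 || memT k tab2

theorem c3_0 : treeOK 20 mem3 t3_0 = true := by decide +kernel
theorem c3_1 : treeOK 20 mem3 t3_1 = true := by decide +kernel
theorem c3_2 : treeOK 20 mem3 t3_2 = true := treeOK_nd (by decide +kernel) c3_0 c3_1
theorem c3_3 : treeOK 20 mem3 t3_3 = true := by decide +kernel
theorem c3_4 : treeOK 20 mem3 t3_4 = true := by decide +kernel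
theorem c3_5 : treeOK 20 mem3 t3_5 = true := treeOK_nd (by decide +kernel) c3_3 c3_4
theorem c3_6 : treeOK 20 mem3 t3_6 = true := treeOK_nd (by decide +kernel) c3_2 c3_5
theorem c3_7 : treeOK 20 mem3 t3_7 = true := by decide +kernel
theorem c3_8 : treeOK 20 mem3 t3_8 = true := by decide +kernel
theorem c3_9 : treeOK 20 mem3 t3_9 = true := treeOK_nd (by decide +kernel) c3_7 c3_8
theorem c3_10 : treeOK 20 mem3 t3_10 = true := by decide +kernel
theorem c3_11 : treeOK 20 mem3 t3_11 = true := by decide +kernel
theorem c3_12 : treeOK 20 mem3 t3_12 = true := treeOK_nd (by decide +kernel) c3_10 c3_11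
theorem c3_13 : treeOK 20 mem3 t3_13 = true := treeOK_nd (by decide +kernel) c3_9 c3_12
theorem c3_14 : treeOK 20 mem3 t3_14 = true := treeOK_nd (by decide +kernel) c3_6 c3_13
theorem c3_15 : treeOK 20 mem3 t3_15 = true := by decide +kernel
theorem c3_16 : treeOK 20 mem3 t3_16 = true := by decide +kernel
theorem c3_17 : treeOK 20 mem3 t3_17 = true := treeOK_nd (by decide +kernel) c3_15 c3_16
theorem c3_18 : treeOK 20 mem3 t3_18 = true := by decide +kernel
theorem c3_19 : treeOK 20 mem3 t3_19 = true := by decide +kernel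
theorem c3_20 : treeOK 20 mem3 t3_20 = true := treeOK_nd (by decide +kernel) c3_18 c3_19
theorem c3_21 : treeOK 20 mem3 t3_21 = true := treeOK_nd (by decide +kernel) c3_17 c3_20
theorem c3_22 : treeOK 20 mem3 t3_22 = true := by decide +kernel
theorem c3_23 : treeOK 20 mem3 t3_23 = true := by decide +kernel
theorem c3_24 : treeOK 20 mem3 t3_24 = true := treeOK_nd (by decide +kernel) c3_22 c3_23
theorem c3_25 : treeOK 20 mem3 t3_25 = true := by decide +kernel
theorem c3_26 : treeOK 20 mem3 t3_26 = true := by decide +kernel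
theorem c3_27 : treeOK 20 mem3 t3_27 = true := treeOK_nd (by decide +kernel) c3_25 c3_26
theorem c3_28 : treeOK 20 mem3 t3_28 = true := treeOK_nd (by decide +kernel) c3_24 c3_27
theorem c3_29 : treeOK 20 mem3 t3_29 = true := treeOK_nd (by decide +kernel) c3_21 c3_28
theorem c3_30 : treeOK 20 mem3 t3_30 = true := treeOK_nd (by decide +kernel) c3_14 c3_29
theorem c3_31 : treeOK 20 mem3 t3_31 = true := by decide +kernel
theorem c3_32 : treeOK 20 mem3 t3_32 = true := by decide +kernel
theorem c3_33 : treeOK 20 mem3 t3_33 = true := treeOK_nd (by decide +kernel) c3_31 c3_32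
theorem c3_34 : treeOK 20 mem3 t3_34 = true := by decide +kernel
theorem c3_35 : treeOK 20 mem3 t3_35 = true := by decide +kernel
theorem c3_36 : treeOK 20 mem3 t3_36 = true := treeOK_nd (by decide +kernel) c3_34 c3_35
theorem c3_37 : treeOK 20 mem3 t3_37 = true := treeOK_nd (by decide +kernel) c3_33 c3_36
theorem c3_38 : treeOK 20 mem3 t3_38 = true := by decide +kernel
theorem c3_39 : treeOK 20 mem3 t3_39 = true := by decide +kernel
theorem c3_40 : treeOK 20 mem3 t3_40 = true := treeOK_nd (by decide +kernel) c3_38 c3_39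
theorem c3_41 : treeOK 20 mem3 t3_41 = true := by decide +kernel
theorem c3_42 : treeOK 20 mem3 t3_42 = true := by decide +kernel
theorem c3_43 : treeOK 20 mem3 t3_43 = true := treeOK_nd (by decide +kernel) c3_41 c3_42
theorem c3_44 : treeOK 20 mem3 t3_44 = true := treeOK_nd (by decide +kernel) c3_40 c3_43
theorem c3_45 : treeOK 20 mem3 t3_45 = true := treeOK_nd (by decide +kernel) c3_37 c3_44
theorem c3_46 : treeOK 20 mem3 t3_46 = true := by decide +kernel
theorem c3_47 : treeOK 20 mem3 t3_47 = true := by decide +kernel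
theorem c3_48 : treeOK 20 mem3 t3_48 = true := treeOK_nd (by decide +kernel) c3_46 c3_47
theorem c3_49 : treeOK 20 mem3 t3_49 = true := by decide +kernel
theorem c3_50 : treeOK 20 mem3 t3_50 = true := by decide +kernel
theorem c3_51 : treeOK 20 mem3 t3_51 = true := treeOK_nd (by decide +kernel) c3_49 c3_50
theorem c3_52 : treeOK 20 mem3 t3_52 = true := treeOK_nd (by decide +kernel) c3_48 c3_51
theorem c3_53 : treeOK 20 mem3 t3_53 = true := by decide +kernel
theorem c3_54 : treeOK 20 mem3 t3_54 = true := by decide +kernel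
theorem c3_55 : treeOK 20 mem3 t3_55 = true := treeOK_nd (by decide +kernel) c3_53 c3_54
theorem c3_56 : treeOK 20 mem3 t3_56 = true := by decide +kernel
theorem c3_57 : treeOK 20 mem3 t3_57 = true := by decide +kernel
theorem c3_58 : treeOK 20 mem3 t3_58 = true := treeOK_nd (by decide +kernel) c3_56 c3_57
theorem c3_59 : treeOK 20 mem3 t3_59 = true := treeOK_nd (by decide +kernel) c3_55 c3_58
theorem c3_60 : treeOK 20 mem3 t3_60 = true := treeOK_nd (by decide +kernel) c3_52 c3_59
theorem c3_61 : treeOK 20 mem3 t3_61 = true := treeOK_nd (by decide +kernel) c3_45 c3_60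
theorem c3_62 : treeOK 20 mem3 t3_62 = true := treeOK_nd (by decide +kernel) c3_30 c3_61
theorem c3_63 : treeOK 20 mem3 t3_63 = true := by decide +kernel
theorem c3_64 : treeOK 20 mem3 t3_64 = true := by decide +kernel
theorem c3_65 : treeOK 20 mem3 t3_65 = true := treeOK_nd (by decide +kernel) c3_63 c3_64
theorem c3_66 : treeOK 20 mem3 t3_66 = true := by decide +kernel
theorem c3_67 : treeOK 20 mem3 t3_67 = true := by decide +kernel
theorem c3_68 : treeOK 20 mem3 t3_68 = true := treeOK_nd (by decide +kernel) c3_66 c3_67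
theorem c3_69 : treeOK 20 mem3 t3_69 = true := treeOK_nd (by decide +kernel) c3_65 c3_68
theorem c3_70 : treeOK 20 mem3 t3_70 = true := by decide +kernel
theorem c3_71 : treeOK 20 mem3 t3_71 = true := by decide +kernel
theorem c3_72 : treeOK 20 mem3 t3_72 = true := treeOK_nd (by decide +kernel) c3_70 c3_71
theorem c3_73 : treeOK 20 mem3 t3_73 = true := by decide +kernel
theorem c3_74 : treeOK 20 mem3 t3_74 = true := by decide +kernel
theorem c3_75 : treeOK 20 mem3 t3_75 = true := treeOK_nd (by decide +kernel) c3_73 c3_74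
theorem c3_76 : treeOK 20 mem3 t3_76 = true := treeOK_nd (by decide +kernel) c3_72 c3_75
theorem c3_77 : treeOK 20 mem3 t3_77 = true := treeOK_nd (by decide +kernel) c3_69 c3_76
theorem c3_78 : treeOK 20 mem3 t3_78 = true := by decide +kernel
theorem c3_79 : treeOK 20 mem3 t3_79 = true := by decide +kernel
theorem c3_80 : treeOK 20 mem3 t3_80 = true := treeOK_nd (by decide +kernel) c3_78 c3_79
theorem c3_81 : treeOK 20 mem3 t3_81 = true := by decide +kernel
theorem c3_82 : treeOK 20 mem3 t3_82 = true := by decide +kernel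
theorem c3_83 : treeOK 20 mem3 t3_83 = true := treeOK_nd (by decide +kernel) c3_81 c3_82
theorem c3_84 : treeOK 20 mem3 t3_84 = true := treeOK_nd (by decide +kernel) c3_80 c3_83
theorem c3_85 : treeOK 20 mem3 t3_85 = true := by decide +kernel
theorem c3_86 : treeOK 20 mem3 t3_86 = true := by decide +kernel
theorem c3_87 : treeOK 20 mem3 t3_87 = true := treeOK_nd (by decide +kernel) c3_85 c3_86
theorem c3_88 : treeOK 20 mem3 t3_88 = true := by decide +kernel
theorem c3_89 : treeOK 20 mem3 t3_89 = true := by decide +kernel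
theorem c3_90 : treeOK 20 mem3 t3_90 = true := treeOK_nd (by decide +kernel) c3_88 c3_89
theorem c3_91 : treeOK 20 mem3 t3_91 = true := treeOK_nd (by decide +kernel) c3_87 c3_90
theorem c3_92 : treeOK 20 mem3 t3_92 = true := treeOK_nd (by decide +kernel) c3_84 c3_91
theorem c3_93 : treeOK 20 mem3 t3_93 = true := treeOK_nd (by decide +kernel) c3_77 c3_92
theorem c3_94 : treeOK 20 mem3 t3_94 = true := by decide +kernel
theorem c3_95 : treeOK 20 mem3 t3_95 = true := by decide +kernel
theorem c3_96 : treeOK 20 mem3 t3_96 = true := treeOK_nd (by decide +kernel) c3_94 c3_95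
theorem c3_97 : treeOK 20 mem3 t3_97 = true := by decide +kernel
theorem c3_98 : treeOK 20 mem3 t3_98 = true := by decide +kernel
theorem c3_99 : treeOK 20 mem3 t3_99 = true := treeOK_nd (by decide +kernel) c3_97 c3_98
theorem c3_100 : treeOK 20 mem3 t3_100 = true := treeOK_nd (by decide +kernel) c3_96 c3_99
theorem c3_101 : treeOK 20 mem3 t3_101 = true := by decide +kernel
theorem c3_102 : treeOK 20 mem3 t3_102 = true := by decide +kernel
theorem c3_103 : treeOK 20 mem3 t3_103 = true := treeOK_nd (by decide +kernel) c3_101 c3_102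
theorem c3_104 : treeOK 20 mem3 t3_104 = true := by decide +kernel
theorem c3_105 : treeOK 20 mem3 t3_105 = true := by decide +kernel
theorem c3_106 : treeOK 20 mem3 t3_106 = true := treeOK_nd (by decide +kernel) c3_104 c3_105
theorem c3_107 : treeOK 20 mem3 t3_107 = true := treeOK_nd (by decide +kernel) c3_103 c3_106
theorem c3_108 : treeOK 20 mem3 t3_108 = true := treeOK_nd (by decide +kernel) c3_100 c3_107
theorem c3_109 : treeOK 20 mem3 t3_109 = true := by decide +kernel
theorem c3_110 : treeOK 20 mem3 t3_110 = true := by decide +kernel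
theorem c3_111 : treeOK 20 mem3 t3_111 = true := treeOK_nd (by decide +kernel) c3_109 c3_110
theorem c3_112 : treeOK 20 mem3 t3_112 = true := by decide +kernel
theorem c3_113 : treeOK 20 mem3 t3_113 = true := by decide +kernel
theorem c3_114 : treeOK 20 mem3 t3_114 = true := treeOK_nd (by decide +kernel) c3_112 c3_113
theorem c3_115 : treeOK 20 mem3 t3_115 = true := treeOK_nd (by decide +kernel) c3_111 c3_114
theorem c3_116 : treeOK 20 mem3 t3_116 = true := by decide +kernel
theorem c3_117 : treeOK 20 mem3 t3_117 = true := by decide +kernel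
theorem c3_118 : treeOK 20 mem3 t3_118 = true := treeOK_nd (by decide +kernel) c3_116 c3_117
theorem c3_119 : treeOK 20 mem3 t3_119 = true := by decide +kernel
theorem c3_120 : treeOK 20 mem3 t3_120 = true := by decide +kernel
theorem c3_121 : treeOK 20 mem3 t3_121 = true := treeOK_nd (by decide +kernel) c3_119 c3_120
theorem c3_122 : treeOK 20 mem3 t3_122 = true := treeOK_nd (by decide +kernel) c3_118 c3_121
theorem c3_123 : treeOK 20 mem3 t3_123 = true := treeOK_nd (by decide +kernel) c3_115 c3_122
theorem c3_124 : treeOK 20 mem3 t3_124 = true := treeOK_nd (by decide +kernel) c3_108 c3_123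
theorem c3_125 : treeOK 20 mem3 t3_125 = true := treeOK_nd (by decide +kernel) c3_93 c3_124
theorem c3_126 : treeOK 20 mem3 t3_126 = true := treeOK_nd (by decide +kernel) c3_62 c3_125

theorem chk3 : treeOK 20 mem3 tab3 = true := c3_126

end Pool.Agent.X68.TF
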