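import Pool.Agent.X68.TF.Tab4
import Pool.Agent.X68.TF.Tab3

set_option autoImplicit false
set_option maxRecDepth 100000

namespace Pool.Agent.X68.TF

def mem4 (k : Nat) : Bool := memT k tab4 || memT k tab3

theorem c4_0 : treeOK 20 mem4 t4_0 = true := by decide +kernel
theorem c4_1 : treeOK 20 mem4 t4_1 = true := by decide +kernel
theorem c4_2 : treeOK 20 mem4 t4_2 = true := treeOK_nd (by decide +kernel) c4_0 c4_1
theorem c4_3 : treeOK 20 mem4 t4_3 = true := by decide +kernel
theorem c4_4 : treeOK 20 mem4 t4_4 = true := by decide +kernel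
theorem c4_5 : treeOK 20 mem4 t4_5 = true := treeOK_nd (by decide +kernel) c4_3 c4_4
theorem c4_6 : treeOK 20 mem4 t4_6 = true := treeOK_nd (by decide +kernel) c4_2 c4_5
theorem c4_7 : treeOK 20 mem4 t4_7 = true := by decide +kernel
theorem c4_8 : treeOK 20 mem4 t4_8 = true := by decide +kernel
theorem c4_9 : treeOK 20 mem4 t4_9 = true := treeOK_nd (by decide +kernel) c4_7 c4_8
theorem c4_10 : treeOK 20 mem4 t4_10 = true := by decide +kernel
theorem c4_11 : treeOK 20 mem4 t4_11 = true := by decide +kernel
theorem c4_12 : treeOK 20 mem4 t4_12 = true := treeOK_nd (by decide +kernel) c4_10 c4_11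
theorem c4_13 : treeOK 20 mem4 t4_13 = true := treeOK_nd (by decide +kernel) c4_9 c4_12
theorem c4_14 : treeOK 20 mem4 t4_14 = true := treeOK_nd (by decide +kernel) c4_6 c4_13
theorem c4_15 : treeOK 20 mem4 t4_15 = true := by decide +kernel
theorem c4_16 : treeOK 20 mem4 t4_16 = true := by decide +kernel
theorem c4_17 : treeOK 20 mem4 t4_17 = true := treeOK_nd (by decide +kernel) c4_15 c4_16
theorem c4_18 : treeOK 20 mem4 t4_18 = true := by decide +kernel
theorem c4_19 : treeOK 20 mem4 t4_19 = true := by decide +kernel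
theorem c4_20 : treeOK 20 mem4 t4_20 = true := treeOK_nd (by decide +kernel) c4_18 c4_19
theorem c4_21 : treeOK 20 mem4 t4_21 = true := treeOK_nd (by decide +kernel) c4_17 c4_20
theorem c4_22 : treeOK 20 mem4 t4_22 = true := by decide +kernel
theorem c4_23 : treeOK 20 mem4 t4_23 = true := by decide +kernel
theorem c4_24 : treeOK 20 mem4 t4_24 = true := treeOK_nd (by decide +kernel) c4_22 c4_23
theorem c4_25 : treeOK 20 mem4 t4_25 = true := by decide +kernel
theorem c4_26 : treeOK 20 mem4 t4_26 = true := by decide +kernel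
theorem c4_27 : treeOK 20 mem4 t4_27 = true := treeOK_nd (by decide +kernel) c4_25 c4_26
theorem c4_28 : treeOK 20 mem4 t4_28 = true := treeOK_nd (by decide +kernel) c4_24 c4_27
theorem c4_29 : treeOK 20 mem4 t4_29 = true := treeOK_nd (by decide +kernel) c4_21 c4_28
theorem c4_30 : treeOK 20 mem4 t4_30 = true := treeOK_nd (by decide +kernel) c4_14 c4_29
theorem c4_31 : treeOK 20 mem4 t4_31 = true := by decide +kernel
theorem c4_32 : treeOK 20 mem4 t4_32 = true := by decide +kernel
theorem c4_33 : treeOK 20 mem4 t4_33 = true := treeOK_nd (by decide +kernel) c4_31 c4_32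
theorem c4_34 : treeOK 20 mem4 t4_34 = true := by decide +kernel
theorem c4_35 : treeOK 20 mem4 t4_35 = true := by decide +kernel
theorem c4_36 : treeOK 20 mem4 t4_36 = true := treeOK_nd (by decide +kernel) c4_34 c4_35
theorem c4_37 : treeOK 20 mem4 t4_37 = true := treeOK_nd (by decide +kernel) c4_33 c4_36
theorem c4_38 : treeOK 20 mem4 t4_38 = true := by decide +kernel
theorem c4_39 : treeOK 20 mem4 t4_39 = true := by decide +kernel
theorem c4_40 : treeOK 20 mem4 t4_40 = true := treeOK_nd (by decide +kernel) c4_38 c4_39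
theorem c4_41 : treeOK 20 mem4 t4_41 = true := by decide +kernel
theorem c4_42 : treeOK 20 mem4 t4_42 = true := by decide +kernel
theorem c4_43 : treeOK 20 mem4 t4_43 = true := treeOK_nd (by decide +kernel) c4_41 c4_42
theorem c4_44 : treeOK 20 mem4 t4_44 = true := treeOK_nd (by decide +kernel) c4_40 c4_43
theorem c4_45 : treeOK 20 mem4 t4_45 = true := treeOK_nd (by decide +kernel) c4_37 c4_44
theorem c4_46 : treeOK 20 mem4 t4_46 = true := by decide +kernel
theorem c4_47 : treeOK 20 mem4 t4_47 = true := by decide +kernel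
theorem c4_48 : treeOK 20 mem4 t4_48 = true := treeOK_nd (by decide +kernel) c4_46 c4_47
theorem c4_49 : treeOK 20 mem4 t4_49 = true := by decide +kernel
theorem c4_50 : treeOK 20 mem4 t4_50 = true := by decide +kernel
theorem c4_51 : treeOK 20 mem4 t4_51 = true := treeOK_nd (by decide +kernel) c4_49 c4_50
theorem c4_52 : treeOK 20 mem4 t4_52 = true := treeOK_nd (by decide +kernel) c4_48 c4_51
theorem c4_53 : treeOK 20 mem4 t4_53 = true := by decide +kernel
theorem c4_54 : treeOK 20 mem4 t4_54 = true := by decide +kernel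
theorem c4_55 : treeOK 20 mem4 t4_55 = true := treeOK_nd (by decide +kernel) c4_53 c4_54
theorem c4_56 : treeOK 20 mem4 t4_56 = true := by decide +kernel
theorem c4_57 : treeOK 20 mem4 t4_57 = true := by decide +kernel
theorem c4_58 : treeOK 20 mem4 t4_58 = true := treeOK_nd (by decide +kernel) c4_56 c4_57
theorem c4_59 : treeOK 20 mem4 t4_59 = true := treeOK_nd (by decide +kernel) c4_55 c4_58
theorem c4_60 : treeOK 20 mem4 t4_60 = true := treeOK_nd (by decide +kernel) c4_52 c4_59
theorem c4_61 : treeOK 20 mem4 t4_61 = true := treeOK_nd (by decide +kernel) c4_45 c4_60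
theorem c4_62 : treeOK 20 mem4 t4_62 = true := treeOK_nd (by decide +kernel) c4_30 c4_61
theorem c4_63 : treeOK 20 mem4 t4_63 = true := by decide +kernel
theorem c4_64 : treeOK 20 mem4 t4_64 = true := by decide +kernel
theorem c4_65 : treeOK 20 mem4 t4_65 = true := treeOK_nd (by decide +kernel) c4_63 c4_64
theorem c4_66 : treeOK 20 mem4 t4_66 = true := by decide +kernel
theorem c4_67 : treeOK 20 mem4 t4_67 = true := by decide +kernel
theorem c4_68 : treeOK 20 mem4 t4_68 = true := treeOK_nd (by decide +kernel) c4_66 c4_67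
theorem c4_69 : treeOK 20 mem4 t4_69 = true := treeOK_nd (by decide +kernel) c4_65 c4_68
theorem c4_70 : treeOK 20 mem4 t4_70 = true := by decide +kernel
theorem c4_71 : treeOK 20 mem4 t4_71 = true := by decide +kernel
theorem c4_72 : treeOK 20 mem4 t4_72 = true := treeOK_nd (by decide +kernel) c4_70 c4_71
theorem c4_73 : treeOK 20 mem4 t4_73 = true := by decide +kernel
theorem c4_74 : treeOK 20 mem4 t4_74 = true := by decide +kernel
theorem c4_75 : treeOK 20 mem4 t4_75 = true := treeOK_nd (by decide +kernel) c4_73 c4_74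
theorem c4_76 : treeOK 20 mem4 t4_76 = true := treeOK_nd (by decide +kernel) c4_72 c4_75
theorem c4_77 : treeOK 20 mem4 t4_77 = true := treeOK_nd (by decide +kernel) c4_69 c4_76
theorem c4_78 : treeOK 20 mem4 t4_78 = true := by decide +kernel
theorem c4_79 : treeOK 20 mem4 t4_79 = true := by decide +kernel
theorem c4_80 : treeOK 20 mem4 t4_80 = true := treeOK_nd (by decide +kernel) c4_78 c4_79
theorem c4_81 : treeOK 20 mem4 t4_81 = true := by decide +kernel
theorem c4_82 : treeOK 20 mem4 t4_82 = true := by decide +kernel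
theorem c4_83 : treeOK 20 mem4 t4_83 = true := treeOK_nd (by decide +kernel) c4_81 c4_82
theorem c4_84 : treeOK 20 mem4 t4_84 = true := treeOK_nd (by decide +kernel) c4_80 c4_83
theorem c4_85 : treeOK 20 mem4 t4_85 = true := by decide +kernel
theorem c4_86 : treeOK 20 mem4 t4_86 = true := by decide +kernel
theorem c4_87 : treeOK 20 mem4 t4_87 = true := treeOK_nd (by decide +kernel) c4_85 c4_86
theorem c4_88 : treeOK 20 mem4 t4_88 = true := by decide +kernel
theorem c4_89 : treeOK 20 mem4 t4_89 = true := by decide +kernel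
theorem c4_90 : treeOK 20 mem4 t4_90 = true := treeOK_nd (by decide +kernel) c4_88 c4_89
theorem c4_91 : treeOK 20 mem4 t4_91 = true := treeOK_nd (by decide +kernel) c4_87 c4_90
theorem c4_92 : treeOK 20 mem4 t4_92 = true := treeOK_nd (by decide +kernel) c4_84 c4_91
theorem c4_93 : treeOK 20 mem4 t4_93 = true := treeOK_nd (by decide +kernel) c4_77 c4_92
theorem c4_94 : treeOK 20 mem4 t4_94 = true := by decide +kernel
theorem c4_95 : treeOK 20 mem4 t4_95 = true := by decide +kernel
theorem c4_96 : treeOK 20 mem4 t4_96 = true := treeOK_nd (by decide +kernel) c4_94 c4_95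
theorem c4_97 : treeOK 20 mem4 t4_97 = true := by decide +kernel
theorem c4_98 : treeOK 20 mem4 t4_98 = true := by decide +kernel
theorem c4_99 : treeOK 20 mem4 t4_99 = true := treeOK_nd (by decide +kernel) c4_97 c4_98
theorem c4_100 : treeOK 20 mem4 t4_100 = true := treeOK_nd (by decide +kernel) c4_96 c4_99
theorem c4_101 : treeOK 20 mem4 t4_101 = true := by decide +kernel
theorem c4_102 : treeOK 20 mem4 t4_102 = true := by decide +kernel
theorem c4_103 : treeOK 20 mem4 t4_103 = true := treeOK_nd (by decide +kernel) c4_101 c4_102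
theorem c4_104 : treeOK 20 mem4 t4_104 = true := by decide +kernel
theorem c4_105 : treeOK 20 mem4 t4_105 = true := by decide +kernel
theorem c4_106 : treeOK 20 mem4 t4_106 = true := treeOK_nd (by decide +kernel) c4_104 c4_105
theorem c4_107 : treeOK 20 mem4 t4_107 = true := treeOK_nd (by decide +kernel) c4_103 c4_106
theorem c4_108 : treeOK 20 mem4 t4_108 = true := treeOK_nd (by decide +kernel) c4_100 c4_107
theorem c4_109 : treeOK 20 mem4 t4_109 = true := by decide +kernel
theorem c4_110 : treeOK 20 mem4 t4_110 = true := by decide +kernel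
theorem c4_111 : treeOK 20 mem4 t4_111 = true := treeOK_nd (by decide +kernel) c4_109 c4_110
theorem c4_112 : treeOK 20 mem4 t4_112 = true := by decide +kernel
theorem c4_113 : treeOK 20 mem4 t4_113 = true := by decide +kernel
theorem c4_114 : treeOK 20 mem4 t4_114 = true := treeOK_nd (by decide +kernel) c4_112 c4_113
theorem c4_115 : treeOK 20 mem4 t4_115 = true := treeOK_nd (by decide +kernel) c4_111 c4_114
theorem c4_116 : treeOK 20 mem4 t4_116 = true := by decide +kernel
theorem c4_117 : treeOK 20 mem4 t4_117 = true := by decide +kernel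
theorem c4_118 : treeOK 20 mem4 t4_118 = true := treeOK_nd (by decide +kernel) c4_116 c4_117
theorem c4_119 : treeOK 20 mem4 t4_119 = true := by decide +kernel
theorem c4_120 : treeOK 20 mem4 t4_120 = true := by decide +kernel
theorem c4_121 : treeOK 20 mem4 t4_121 = true := treeOK_nd (by decide +kernel) c4_119 c4_120
theorem c4_122 : treeOK 20 mem4 t4_122 = true := treeOK_nd (by decide +kernel) c4_118 c4_121
theorem c4_123 : treeOK 20 mem4 t4_123 = true := treeOK_nd (by decide +kernel) c4_115 c4_122
theorem c4_124 : treeOK 20 mem4 t4_124 = true := treeOK_nd (by decide +kernel) c4_108 c4_123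
theorem c4_125 : treeOK 20 mem4 t4_125 = true := treeOK_nd (by decide +kernel) c4_93 c4_124
theorem c4_126 : treeOK 20 mem4 t4_126 = true := treeOK_nd (by decide +kernel) c4_62 c4_125

theorem chk4 : treeOK 20 mem4 tab4 = true := c4_126

end Pool.Agent.X68.TF
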