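import Pool.Agent.X68.TF.Tab5
import Pool.Agent.X68.TF.Tab4

set_option autoImplicit false
set_option maxRecDepth 100000

namespace Pool.Agent.X68.TF

def mem5 (k : Nat) : Bool := memT k tab5 || memT k tab4

theorem c5_0 : treeOK 20 mem5 t5_0 = true := by decide +kernel
theorem c5_1 : treeOK 20 mem5 t5_1 = true := by decide +kernel
theorem c5_2 : treeOK 20 mem5 t5_2 = true := treeOK_nd (by decide +kernel) c5_0 c5_1
theorem c5_3 : treeOK 20 mem5 t5_3 = true := by decide +kernel
theorem c5_4 : treeOK 20 mem5 t5_4 = true := by decide +kernel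
theorem c5_5 : treeOK 20 mem5 t5_5 = true := treeOK_nd (by decide +kernel) c5_3 c5_4
theorem c5_6 : treeOK 20 mem5 t5_6 = true := treeOK_nd (by decide +kernel) c5_2 c5_5
theorem c5_7 : treeOK 20 mem5 t5_7 = true := by decide +kernel
theorem c5_8 : treeOK 20 mem5 t5_8 = true := by decide +kernel
theorem c5_9 : treeOK 20 mem5 t5_9 = true := treeOK_nd (by decide +kernel) c5_7 c5_8
theorem c5_10 : treeOK 20 mem5 t5_10 = true := by decide +kernel
theorem c5_11 : treeOK 20 mem5 t5_11 = true := by decide +kernel
theorem c5_12 : treeOK 20 mem5 t5_12 = true := treeOK_nd (by decide +kernel) c5_10 c5_11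
theorem c5_13 : treeOK 20 mem5 t5_13 = true := treeOK_nd (by decide +kernel) c5_9 c5_12
theorem c5_14 : treeOK 20 mem5 t5_14 = true := treeOK_nd (by decide +kernel) c5_6 c5_13
theorem c5_15 : treeOK 20 mem5 t5_15 = true := by decide +kernel
theorem c5_16 : treeOK 20 mem5 t5_16 = true := by decide +kernel
theorem c5_17 : treeOK 20 mem5 t5_17 = true := treeOK_nd (by decide +kernel) c5_15 c5_16
theorem c5_18 : treeOK 20 mem5 t5_18 = true := by decide +kernel
theorem c5_19 : treeOK 20 mem5 t5_19 = true := by decide +kernel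
theorem c5_20 : treeOK 20 mem5 t5_20 = true := treeOK_nd (by decide +kernel) c5_18 c5_19
theorem c5_21 : treeOK 20 mem5 t5_21 = true := treeOK_nd (by decide +kernel) c5_17 c5_20
theorem c5_22 : treeOK 20 mem5 t5_22 = true := by decide +kernel
theorem c5_23 : treeOK 20 mem5 t5_23 = true := by decide +kernel
theorem c5_24 : treeOK 20 mem5 t5_24 = true := treeOK_nd (by decide +kernel) c5_22 c5_23
theorem c5_25 : treeOK 20 mem5 t5_25 = true := by decide +kernel
theorem c5_26 : treeOK 20 mem5 t5_26 = true := by decide +kernel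
theorem c5_27 : treeOK 20 mem5 t5_27 = true := treeOK_nd (by decide +kernel) c5_25 c5_26
theorem c5_28 : treeOK 20 mem5 t5_28 = true := treeOK_nd (by decide +kernel) c5_24 c5_27
theorem c5_29 : treeOK 20 mem5 t5_29 = true := treeOK_nd (by decide +kernel) c5_21 c5_28
theorem c5_30 : treeOK 20 mem5 t5_30 = true := treeOK_nd (by decide +kernel) c5_14 c5_29
theorem c5_31 : treeOK 20 mem5 t5_31 = true := by decide +kernel
theorem c5_32 : treeOK 20 mem5 t5_32 = true := by decide +kernel
theorem c5_33 : treeOK 20 mem5 t5_33 = true := treeOK_nd (by decide +kernel) c5_31 c5_32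
theorem c5_34 : treeOK 20 mem5 t5_34 = true := by decide +kernel
theorem c5_35 : treeOK 20 mem5 t5_35 = true := by decide +kernel
theorem c5_36 : treeOK 20 mem5 t5_36 = true := treeOK_nd (by decide +kernel) c5_34 c5_35
theorem c5_37 : treeOK 20 mem5 t5_37 = true := treeOK_nd (by decide +kernel) c5_33 c5_36
theorem c5_38 : treeOK 20 mem5 t5_38 = true := by decide +kernel
theorem c5_39 : treeOK 20 mem5 t5_39 = true := by decide +kernel
theorem c5_40 : treeOK 20 mem5 t5_40 = true := treeOK_nd (by decide +kernel) c5_38 c5_39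
theorem c5_41 : treeOK 20 mem5 t5_41 = true := by decide +kernel
theorem c5_42 : treeOK 20 mem5 t5_42 = true := by decide +kernel
theorem c5_43 : treeOK 20 mem5 t5_43 = true := treeOK_nd (by decide +kernel) c5_41 c5_42
theorem c5_44 : treeOK 20 mem5 t5_44 = true := treeOK_nd (by decide +kernel) c5_40 c5_43
theorem c5_45 : treeOK 20 mem5 t5_45 = true := treeOK_nd (by decide +kernel) c5_37 c5_44
theorem c5_46 : treeOK 20 mem5 t5_46 = true := by decide +kernel
theorem c5_47 : treeOK 20 mem5 t5_47 = true := by decide +kernel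
theorem c5_48 : treeOK 20 mem5 t5_48 = true := treeOK_nd (by decide +kernel) c5_46 c5_47
theorem c5_49 : treeOK 20 mem5 t5_49 = true := by decide +kernel
theorem c5_50 : treeOK 20 mem5 t5_50 = true := by decide +kernel
theorem c5_51 : treeOK 20 mem5 t5_51 = true := treeOK_nd (by decide +kernel) c5_49 c5_50
theorem c5_52 : treeOK 20 mem5 t5_52 = true := treeOK_nd (by decide +kernel) c5_48 c5_51
theorem c5_53 : treeOK 20 mem5 t5_53 = true := by decide +kernel
theorem c5_54 : treeOK 20 mem5 t5_54 = true := by decide +kernel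
theorem c5_55 : treeOK 20 mem5 t5_55 = true := treeOK_nd (by decide +kernel) c5_53 c5_54
theorem c5_56 : treeOK 20 mem5 t5_56 = true := by decide +kernel
theorem c5_57 : treeOK 20 mem5 t5_57 = true := by decide +kernel
theorem c5_58 : treeOK 20 mem5 t5_58 = true := treeOK_nd (by decide +kernel) c5_56 c5_57
theorem c5_59 : treeOK 20 mem5 t5_59 = true := treeOK_nd (by decide +kernel) c5_55 c5_58
theorem c5_60 : treeOK 20 mem5 t5_60 = true := treeOK_nd (by decide +kernel) c5_52 c5_59
theorem c5_61 : treeOK 20 mem5 t5_61 = true := treeOK_nd (by decide +kernel) c5_45 c5_60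
theorem c5_62 : treeOK 20 mem5 t5_62 = true := treeOK_nd (by decide +kernel) c5_30 c5_61
theorem c5_63 : treeOK 20 mem5 t5_63 = true := by decide +kernel
theorem c5_64 : treeOK 20 mem5 t5_64 = true := by decide +kernel
theorem c5_65 : treeOK 20 mem5 t5_65 = true := treeOK_nd (by decide +kernel) c5_63 c5_64
theorem c5_66 : treeOK 20 mem5 t5_66 = true := by decide +kernel
theorem c5_67 : treeOK 20 mem5 t5_67 = true := by decide +kernel
theorem c5_68 : treeOK 20 mem5 t5_68 = true := treeOK_nd (by decide +kernel) c5_66 c5_67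
theorem c5_69 : treeOK 20 mem5 t5_69 = true := treeOK_nd (by decide +kernel) c5_65 c5_68
theorem c5_70 : treeOK 20 mem5 t5_70 = true := by decide +kernel
theorem c5_71 : treeOK 20 mem5 t5_71 = true := by decide +kernel
theorem c5_72 : treeOK 20 mem5 t5_72 = true := treeOK_nd (by decide +kernel) c5_70 c5_71
theorem c5_73 : treeOK 20 mem5 t5_73 = true := by decide +kernel
theorem c5_74 : treeOK 20 mem5 t5_74 = true := by decide +kernel
theorem c5_75 : treeOK 20 mem5 t5_75 = true := treeOK_nd (by decide +kernel) c5_73 c5_74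
theorem c5_76 : treeOK 20 mem5 t5_76 = true := treeOK_nd (by decide +kernel) c5_72 c5_75
theorem c5_77 : treeOK 20 mem5 t5_77 = true := treeOK_nd (by decide +kernel) c5_69 c5_76
theorem c5_78 : treeOK 20 mem5 t5_78 = true := by decide +kernel
theorem c5_79 : treeOK 20 mem5 t5_79 = true := by decide +kernel
theorem c5_80 : treeOK 20 mem5 t5_80 = true := treeOK_nd (by decide +kernel) c5_78 c5_79
theorem c5_81 : treeOK 20 mem5 t5_81 = true := by decide +kernel
theorem c5_82 : treeOK 20 mem5 t5_82 = true := by decide +kernel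
theorem c5_83 : treeOK 20 mem5 t5_83 = true := treeOK_nd (by decide +kernel) c5_81 c5_82
theorem c5_84 : treeOK 20 mem5 t5_84 = true := treeOK_nd (by decide +kernel) c5_80 c5_83
theorem c5_85 : treeOK 20 mem5 t5_85 = true := by decide +kernel
theorem c5_86 : treeOK 20 mem5 t5_86 = true := by decide +kernel
theorem c5_87 : treeOK 20 mem5 t5_87 = true := treeOK_nd (by decide +kernel) c5_85 c5_86
theorem c5_88 : treeOK 20 mem5 t5_88 = true := by decide +kernel
theorem c5_89 : treeOK 20 mem5 t5_89 = true := by decide +kernel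
theorem c5_90 : treeOK 20 mem5 t5_90 = true := treeOK_nd (by decide +kernel) c5_88 c5_89
theorem c5_91 : treeOK 20 mem5 t5_91 = true := treeOK_nd (by decide +kernel) c5_87 c5_90
theorem c5_92 : treeOK 20 mem5 t5_92 = true := treeOK_nd (by decide +kernel) c5_84 c5_91
theorem c5_93 : treeOK 20 mem5 t5_93 = true := treeOK_nd (by decide +kernel) c5_77 c5_92
theorem c5_94 : treeOK 20 mem5 t5_94 = true := by decide +kernel
theorem c5_95 : treeOK 20 mem5 t5_95 = true := by decide +kernel
theorem c5_96 : treeOK 20 mem5 t5_96 = true := treeOK_nd (by decide +kernel) c5_94 c5_95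
theorem c5_97 : treeOK 20 mem5 t5_97 = true := by decide +kernel
theorem c5_98 : treeOK 20 mem5 t5_98 = true := by decide +kernel
theorem c5_99 : treeOK 20 mem5 t5_99 = true := treeOK_nd (by decide +kernel) c5_97 c5_98
theorem c5_100 : treeOK 20 mem5 t5_100 = true := treeOK_nd (by decide +kernel) c5_96 c5_99
theorem c5_101 : treeOK 20 mem5 t5_101 = true := by decide +kernel
theorem c5_102 : treeOK 20 mem5 t5_102 = true := by decide +kernel
theorem c5_103 : treeOK 20 mem5 t5_103 = true := treeOK_nd (by decide +kernel) c5_101 c5_102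
theorem c5_104 : treeOK 20 mem5 t5_104 = true := by decide +kernel
theorem c5_105 : treeOK 20 mem5 t5_105 = true := by decide +kernel
theorem c5_106 : treeOK 20 mem5 t5_106 = true := treeOK_nd (by decide +kernel) c5_104 c5_105
theorem c5_107 : treeOK 20 mem5 t5_107 = true := treeOK_nd (by decide +kernel) c5_103 c5_106
theorem c5_108 : treeOK 20 mem5 t5_108 = true := treeOK_nd (by decide +kernel) c5_100 c5_107
theorem c5_109 : treeOK 20 mem5 t5_109 = true := by decide +kernel
theorem c5_110 : treeOK 20 mem5 t5_110 = true := by decide +kernel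
theorem c5_111 : treeOK 20 mem5 t5_111 = true := treeOK_nd (by decide +kernel) c5_109 c5_110
theorem c5_112 : treeOK 20 mem5 t5_112 = true := by decide +kernel
theorem c5_113 : treeOK 20 mem5 t5_113 = true := by decide +kernel
theorem c5_114 : treeOK 20 mem5 t5_114 = true := treeOK_nd (by decide +kernel) c5_112 c5_113
theorem c5_115 : treeOK 20 mem5 t5_115 = true := treeOK_nd (by decide +kernel) c5_111 c5_114
theorem c5_116 : treeOK 20 mem5 t5_116 = true := by decide +kernel
theorem c5_117 : treeOK 20 mem5 t5_117 = true := by decide +kernel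
theorem c5_118 : treeOK 20 mem5 t5_118 = true := treeOK_nd (by decide +kernel) c5_116 c5_117
theorem c5_119 : treeOK 20 mem5 t5_119 = true := by decide +kernel
theorem c5_120 : treeOK 20 mem5 t5_120 = true := by decide +kernel
theorem c5_121 : treeOK 20 mem5 t5_121 = true := treeOK_nd (by decide +kernel) c5_119 c5_120
theorem c5_122 : treeOK 20 mem5 t5_122 = true := treeOK_nd (by decide +kernel) c5_118 c5_121
theorem c5_123 : treeOK 20 mem5 t5_123 = true := treeOK_nd (by decide +kernel) c5_115 c5_122
theorem c5_124 : treeOK 20 mem5 t5_124 = true := treeOK_nd (by decide +kernel) c5_108 c5_123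
theorem c5_125 : treeOK 20 mem5 t5_125 = true := treeOK_nd (by decide +kernel) c5_93 c5_124
theorem c5_126 : treeOK 20 mem5 t5_126 = true := treeOK_nd (by decide +kernel) c5_62 c5_125

theorem chk5 : treeOK 20 mem5 tab5 = true := c5_126

end Pool.Agent.X68.TF
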