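import Pool.Agent.X68.TF.Tab6
import Pool.Agent.X68.TF.Tab5

set_option autoImplicit false
set_option maxRecDepth 100000

namespace Pool.Agent.X68.TF

def mem6 (k : Nat) : Bool := memT k tab6 || memT k tab5

theorem c6_0 : treeOK 20 mem6 t6_0 = true := by decide +kernel
theorem c6_1 : treeOK 20 mem6 t6_1 = true := by decide +kernel
theorem c6_2 : treeOK 20 mem6 t6_2 = true := treeOK_nd (by decide +kernel) c6_0 c6_1
theorem c6_3 : treeOK 20 mem6 t6_3 = true := by decide +kernel
theorem c6_4 : treeOK 20 mem6 t6_4 = true := by decide +kernel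
theorem c6_5 : treeOK 20 mem6 t6_5 = true := treeOK_nd (by decide +kernel) c6_3 c6_4
theorem c6_6 : treeOK 20 mem6 t6_6 = true := treeOK_nd (by decide +kernel) c6_2 c6_5
theorem c6_7 : treeOK 20 mem6 t6_7 = true := by decide +kernel
theorem c6_8 : treeOK 20 mem6 t6_8 = true := by decide +kernel
theorem c6_9 : treeOK 20 mem6 t6_9 = true := treeOK_nd (by decide +kernel) c6_7 c6_8
theorem c6_10 : treeOK 20 mem6 t6_10 = true := by decide +kernel
theorem c6_11 : treeOK 20 mem6 t6_11 = true := by decide +kernel
theorem c6_12 : treeOK 20 mem6 t6_12 = true := treeOK_nd (by decide +kernel) c6_10 c6_11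
theorem c6_13 : treeOK 20 mem6 t6_13 = true := treeOK_nd (by decide +kernel) c6_9 c6_12
theorem c6_14 : treeOK 20 mem6 t6_14 = true := treeOK_nd (by decide +kernel) c6_6 c6_13
theorem c6_15 : treeOK 20 mem6 t6_15 = true := by decide +kernel
theorem c6_16 : treeOK 20 mem6 t6_16 = true := by decide +kernel
theorem c6_17 : treeOK 20 mem6 t6_17 = true := treeOK_nd (by decide +kernel) c6_15 c6_16
theorem c6_18 : treeOK 20 mem6 t6_18 = true := by decide +kernel
theorem c6_19 : treeOK 20 mem6 t6_19 = true := by decide +kernel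
theorem c6_20 : treeOK 20 mem6 t6_20 = true := treeOK_nd (by decide +kernel) c6_18 c6_19
theorem c6_21 : treeOK 20 mem6 t6_21 = true := treeOK_nd (by decide +kernel) c6_17 c6_20
theorem c6_22 : treeOK 20 mem6 t6_22 = true := by decide +kernel
theorem c6_23 : treeOK 20 mem6 t6_23 = true := by decide +kernel
theorem c6_24 : treeOK 20 mem6 t6_24 = true := treeOK_nd (by decide +kernel) c6_22 c6_23
theorem c6_25 : treeOK 20 mem6 t6_25 = true := by decide +kernel
theorem c6_26 : treeOK 20 mem6 t6_26 = true := by decide +kernel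
theorem c6_27 : treeOK 20 mem6 t6_27 = true := treeOK_nd (by decide +kernel) c6_25 c6_26
theorem c6_28 : treeOK 20 mem6 t6_28 = true := treeOK_nd (by decide +kernel) c6_24 c6_27
theorem c6_29 : treeOK 20 mem6 t6_29 = true := treeOK_nd (by decide +kernel) c6_21 c6_28
theorem c6_30 : treeOK 20 mem6 t6_30 = true := treeOK_nd (by decide +kernel) c6_14 c6_29
theorem c6_31 : treeOK 20 mem6 t6_31 = true := by decide +kernel
theorem c6_32 : treeOK 20 mem6 t6_32 = true := by decide +kernel
theorem c6_33 : treeOK 20 mem6 t6_33 = true := treeOK_nd (by decide +kernel) c6_31 c6_32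
theorem c6_34 : treeOK 20 mem6 t6_34 = true := by decide +kernel
theorem c6_35 : treeOK 20 mem6 t6_35 = true := by decide +kernel
theorem c6_36 : treeOK 20 mem6 t6_36 = true := treeOK_nd (by decide +kernel) c6_34 c6_35
theorem c6_37 : treeOK 20 mem6 t6_37 = true := treeOK_nd (by decide +kernel) c6_33 c6_36
theorem c6_38 : treeOK 20 mem6 t6_38 = true := by decide +kernel
theorem c6_39 : treeOK 20 mem6 t6_39 = true := by decide +kernel
theorem c6_40 : treeOK 20 mem6 t6_40 = true := treeOK_nd (by decide +kernel) c6_38 c6_39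
theorem c6_41 : treeOK 20 mem6 t6_41 = true := by decide +kernel
theorem c6_42 : treeOK 20 mem6 t6_42 = true := by decide +kernel
theorem c6_43 : treeOK 20 mem6 t6_43 = true := treeOK_nd (by decide +kernel) c6_41 c6_42
theorem c6_44 : treeOK 20 mem6 t6_44 = true := treeOK_nd (by decide +kernel) c6_40 c6_43
theorem c6_45 : treeOK 20 mem6 t6_45 = true := treeOK_nd (by decide +kernel) c6_37 c6_44
theorem c6_46 : treeOK 20 mem6 t6_46 = true := by decide +kernel
theorem c6_47 : treeOK 20 mem6 t6_47 = true := by decide +kernel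
theorem c6_48 : treeOK 20 mem6 t6_48 = true := treeOK_nd (by decide +kernel) c6_46 c6_47
theorem c6_49 : treeOK 20 mem6 t6_49 = true := by decide +kernel
theorem c6_50 : treeOK 20 mem6 t6_50 = true := by decide +kernel
theorem c6_51 : treeOK 20 mem6 t6_51 = true := treeOK_nd (by decide +kernel) c6_49 c6_50
theorem c6_52 : treeOK 20 mem6 t6_52 = true := treeOK_nd (by decide +kernel) c6_48 c6_51
theorem c6_53 : treeOK 20 mem6 t6_53 = true := by decide +kernel
theorem c6_54 : treeOK 20 mem6 t6_54 = true := by decide +kernel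
theorem c6_55 : treeOK 20 mem6 t6_55 = true := treeOK_nd (by decide +kernel) c6_53 c6_54
theorem c6_56 : treeOK 20 mem6 t6_56 = true := by decide +kernel
theorem c6_57 : treeOK 20 mem6 t6_57 = true := by decide +kernel
theorem c6_58 : treeOK 20 mem6 t6_58 = true := treeOK_nd (by decide +kernel) c6_56 c6_57
theorem c6_59 : treeOK 20 mem6 t6_59 = true := treeOK_nd (by decide +kernel) c6_55 c6_58
theorem c6_60 : treeOK 20 mem6 t6_60 = true := treeOK_nd (by decide +kernel) c6_52 c6_59
theorem c6_61 : treeOK 20 mem6 t6_61 = true := treeOK_nd (by decide +kernel) c6_45 c6_60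
theorem c6_62 : treeOK 20 mem6 t6_62 = true := treeOK_nd (by decide +kernel) c6_30 c6_61

theorem chk6 : treeOK 20 mem6 tab6 = true := c6_62

end Pool.Agent.X68.TF
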