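import Pool.Agent.X68.TF.Tab7
import Pool.Agent.X68.TF.Tab6

set_option autoImplicit false
set_option maxRecDepth 100000

namespace Pool.Agent.X68.TF

def mem7 (k : Nat) : Bool := memT k tab7 || memT k tab6

theorem c7_0 : treeOK 20 mem7 t7_0 = true := by decide +kernel
theorem c7_1 : treeOK 20 mem7 t7_1 = true := by decide +kernel
theorem c7_2 : treeOK 20 mem7 t7_2 = true := treeOK_nd (by decide +kernel) c7_0 c7_1
theorem c7_3 : treeOK 20 mem7 t7_3 = true := by decide +kernel
theorem c7_4 : treeOK 20 mem7 t7_4 = true := by decide +kernel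
theorem c7_5 : treeOK 20 mem7 t7_5 = true := treeOK_nd (by decide +kernel) c7_3 c7_4
theorem c7_6 : treeOK 20 mem7 t7_6 = true := treeOK_nd (by decide +kernel) c7_2 c7_5
theorem c7_7 : treeOK 20 mem7 t7_7 = true := by decide +kernel
theorem c7_8 : treeOK 20 mem7 t7_8 = true := by decide +kernel
theorem c7_9 : treeOK 20 mem7 t7_9 = true := treeOK_nd (by decide +kernel) c7_7 c7_8
theorem c7_10 : treeOK 20 mem7 t7_10 = true := by decide +kernel
theorem c7_11 : treeOK 20 mem7 t7_11 = true := by decide +kernel
theorem c7_12 : treeOK 20 mem7 t7_12 = true := treeOK_nd (by decide +kernel) c7_10 c7_11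
theorem c7_13 : treeOK 20 mem7 t7_13 = true := treeOK_nd (by decide +kernel) c7_9 c7_12
theorem c7_14 : treeOK 20 mem7 t7_14 = true := treeOK_nd (by decide +kernel) c7_6 c7_13
theorem c7_15 : treeOK 20 mem7 t7_15 = true := by decide +kernel
theorem c7_16 : treeOK 20 mem7 t7_16 = true := by decide +kernel
theorem c7_17 : treeOK 20 mem7 t7_17 = true := treeOK_nd (by decide +kernel) c7_15 c7_16
theorem c7_18 : treeOK 20 mem7 t7_18 = true := by decide +kernel
theorem c7_19 : treeOK 20 mem7 t7_19 = true := by decide +kernel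
theorem c7_20 : treeOK 20 mem7 t7_20 = true := treeOK_nd (by decide +kernel) c7_18 c7_19
theorem c7_21 : treeOK 20 mem7 t7_21 = true := treeOK_nd (by decide +kernel) c7_17 c7_20
theorem c7_22 : treeOK 20 mem7 t7_22 = true := by decide +kernel
theorem c7_23 : treeOK 20 mem7 t7_23 = true := by decide +kernel
theorem c7_24 : treeOK 20 mem7 t7_24 = true := treeOK_nd (by decide +kernel) c7_22 c7_23
theorem c7_25 : treeOK 20 mem7 t7_25 = true := by decide +kernel
theorem c7_26 : treeOK 20 mem7 t7_26 = true := by decide +kernel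
theorem c7_27 : treeOK 20 mem7 t7_27 = true := treeOK_nd (by decide +kernel) c7_25 c7_26
theorem c7_28 : treeOK 20 mem7 t7_28 = true := treeOK_nd (by decide +kernel) c7_24 c7_27
theorem c7_29 : treeOK 20 mem7 t7_29 = true := treeOK_nd (by decide +kernel) c7_21 c7_28
theorem c7_30 : treeOK 20 mem7 t7_30 = true := treeOK_nd (by decide +kernel) c7_14 c7_29
theorem c7_31 : treeOK 20 mem7 t7_31 = true := by decide +kernel
theorem c7_32 : treeOK 20 mem7 t7_32 = true := by decide +kernel
theorem c7_33 : treeOK 20 mem7 t7_33 = true := treeOK_nd (by decide +kernel) c7_31 c7_32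
theorem c7_34 : treeOK 20 mem7 t7_34 = true := by decide +kernel
theorem c7_35 : treeOK 20 mem7 t7_35 = true := by decide +kernel
theorem c7_36 : treeOK 20 mem7 t7_36 = true := treeOK_nd (by decide +kernel) c7_34 c7_35
theorem c7_37 : treeOK 20 mem7 t7_37 = true := treeOK_nd (by decide +kernel) c7_33 c7_36
theorem c7_38 : treeOK 20 mem7 t7_38 = true := by decide +kernel
theorem c7_39 : treeOK 20 mem7 t7_39 = true := by decide +kernel
theorem c7_40 : treeOK 20 mem7 t7_40 = true := treeOK_nd (by decide +kernel) c7_38 c7_39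
theorem c7_41 : treeOK 20 mem7 t7_41 = true := by decide +kernel
theorem c7_42 : treeOK 20 mem7 t7_42 = true := by decide +kernel
theorem c7_43 : treeOK 20 mem7 t7_43 = true := treeOK_nd (by decide +kernel) c7_41 c7_42
theorem c7_44 : treeOK 20 mem7 t7_44 = true := treeOK_nd (by decide +kernel) c7_40 c7_43
theorem c7_45 : treeOK 20 mem7 t7_45 = true := treeOK_nd (by decide +kernel) c7_37 c7_44
theorem c7_46 : treeOK 20 mem7 t7_46 = true := by decide +kernel
theorem c7_47 : treeOK 20 mem7 t7_47 = true := by decide +kernel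
theorem c7_48 : treeOK 20 mem7 t7_48 = true := treeOK_nd (by decide +kernel) c7_46 c7_47
theorem c7_49 : treeOK 20 mem7 t7_49 = true := by decide +kernel
theorem c7_50 : treeOK 20 mem7 t7_50 = true := by decide +kernel
theorem c7_51 : treeOK 20 mem7 t7_51 = true := treeOK_nd (by decide +kernel) c7_49 c7_50
theorem c7_52 : treeOK 20 mem7 t7_52 = true := treeOK_nd (by decide +kernel) c7_48 c7_51
theorem c7_53 : treeOK 20 mem7 t7_53 = true := by decide +kernel
theorem c7_54 : treeOK 20 mem7 t7_54 = true := by decide +kernel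
theorem c7_55 : treeOK 20 mem7 t7_55 = true := treeOK_nd (by decide +kernel) c7_53 c7_54
theorem c7_56 : treeOK 20 mem7 t7_56 = true := by decide +kernel
theorem c7_57 : treeOK 20 mem7 t7_57 = true := by decide +kernel
theorem c7_58 : treeOK 20 mem7 t7_58 = true := treeOK_nd (by decide +kernel) c7_56 c7_57
theorem c7_59 : treeOK 20 mem7 t7_59 = true := treeOK_nd (by decide +kernel) c7_55 c7_58
theorem c7_60 : treeOK 20 mem7 t7_60 = true := treeOK_nd (by decide +kernel) c7_52 c7_59
theorem c7_61 : treeOK 20 mem7 t7_61 = true := treeOK_nd (by decide +kernel) c7_45 c7_60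
theorem c7_62 : treeOK 20 mem7 t7_62 = true := treeOK_nd (by decide +kernel) c7_30 c7_61

theorem chk7 : treeOK 20 mem7 tab7 = true := c7_62

end Pool.Agent.X68.TF
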