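import Pool.Agent.X68.TF.Tab8
import Pool.Agent.X68.TF.Tab7

set_option autoImplicit false
set_option maxRecDepth 100000

namespace Pool.Agent.X68.TF

def mem8 (k : Nat) : Bool := memT k tab8 || memT k tab7

theorem c8_0 : treeOK 20 mem8 t8_0 = true := by decide +kernel
theorem c8_1 : treeOK 20 mem8 t8_1 = true := by decide +kernel
theorem c8_2 : treeOK 20 mem8 t8_2 = true := treeOK_nd (by decide +kernel) c8_0 c8_1
theorem c8_3 : treeOK 20 mem8 t8_3 = true := by decide +kernel
theorem c8_4 : treeOK 20 mem8 t8_4 = true := by decide +kernel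
theorem c8_5 : treeOK 20 mem8 t8_5 = true := treeOK_nd (by decide +kernel) c8_3 c8_4
theorem c8_6 : treeOK 20 mem8 t8_6 = true := treeOK_nd (by decide +kernel) c8_2 c8_5
theorem c8_7 : treeOK 20 mem8 t8_7 = true := by decide +kernel
theorem c8_8 : treeOK 20 mem8 t8_8 = true := by decide +kernel
theorem c8_9 : treeOK 20 mem8 t8_9 = true := treeOK_nd (by decide +kernel) c8_7 c8_8
theorem c8_10 : treeOK 20 mem8 t8_10 = true := by decide +kernel
theorem c8_11 : treeOK 20 mem8 t8_11 = true := by decide +kernel
theorem c8_12 : treeOK 20 mem8 t8_12 = true := treeOK_nd (by decide +kernel) c8_10 c8_11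
theorem c8_13 : treeOK 20 mem8 t8_13 = true := treeOK_nd (by decide +kernel) c8_9 c8_12
theorem c8_14 : treeOK 20 mem8 t8_14 = true := treeOK_nd (by decide +kernel) c8_6 c8_13
theorem c8_15 : treeOK 20 mem8 t8_15 = true := by decide +kernel
theorem c8_16 : treeOK 20 mem8 t8_16 = true := by decide +kernel
theorem c8_17 : treeOK 20 mem8 t8_17 = true := treeOK_nd (by decide +kernel) c8_15 c8_16
theorem c8_18 : treeOK 20 mem8 t8_18 = true := by decide +kernel
theorem c8_19 : treeOK 20 mem8 t8_19 = true := by decide +kernel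
theorem c8_20 : treeOK 20 mem8 t8_20 = true := treeOK_nd (by decide +kernel) c8_18 c8_19
theorem c8_21 : treeOK 20 mem8 t8_21 = true := treeOK_nd (by decide +kernel) c8_17 c8_20
theorem c8_22 : treeOK 20 mem8 t8_22 = true := by decide +kernel
theorem c8_23 : treeOK 20 mem8 t8_23 = true := by decide +kernel
theorem c8_24 : treeOK 20 mem8 t8_24 = true := treeOK_nd (by decide +kernel) c8_22 c8_23
theorem c8_25 : treeOK 20 mem8 t8_25 = true := by decide +kernel
theorem c8_26 : treeOK 20 mem8 t8_26 = true := by decide +kernel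
theorem c8_27 : treeOK 20 mem8 t8_27 = true := treeOK_nd (by decide +kernel) c8_25 c8_26
theorem c8_28 : treeOK 20 mem8 t8_28 = true := treeOK_nd (by decide +kernel) c8_24 c8_27
theorem c8_29 : treeOK 20 mem8 t8_29 = true := treeOK_nd (by decide +kernel) c8_21 c8_28
theorem c8_30 : treeOK 20 mem8 t8_30 = true := treeOK_nd (by decide +kernel) c8_14 c8_29
theorem c8_31 : treeOK 20 mem8 t8_31 = true := by decide +kernel
theorem c8_32 : treeOK 20 mem8 t8_32 = true := by decide +kernel
theorem c8_33 : treeOK 20 mem8 t8_33 = true := treeOK_nd (by decide +kernel) c8_31 c8_32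
theorem c8_34 : treeOK 20 mem8 t8_34 = true := by decide +kernel
theorem c8_35 : treeOK 20 mem8 t8_35 = true := by decide +kernel
theorem c8_36 : treeOK 20 mem8 t8_36 = true := treeOK_nd (by decide +kernel) c8_34 c8_35
theorem c8_37 : treeOK 20 mem8 t8_37 = true := treeOK_nd (by decide +kernel) c8_33 c8_36
theorem c8_38 : treeOK 20 mem8 t8_38 = true := by decide +kernel
theorem c8_39 : treeOK 20 mem8 t8_39 = true := by decide +kernel
theorem c8_40 : treeOK 20 mem8 t8_40 = true := treeOK_nd (by decide +kernel) c8_38 c8_39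
theorem c8_41 : treeOK 20 mem8 t8_41 = true := by decide +kernel
theorem c8_42 : treeOK 20 mem8 t8_42 = true := by decide +kernel
theorem c8_43 : treeOK 20 mem8 t8_43 = true := treeOK_nd (by decide +kernel) c8_41 c8_42
theorem c8_44 : treeOK 20 mem8 t8_44 = true := treeOK_nd (by decide +kernel) c8_40 c8_43
theorem c8_45 : treeOK 20 mem8 t8_45 = true := treeOK_nd (by decide +kernel) c8_37 c8_44
theorem c8_46 : treeOK 20 mem8 t8_46 = true := by decide +kernel
theorem c8_47 : treeOK 20 mem8 t8_47 = true := by decide +kernel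
theorem c8_48 : treeOK 20 mem8 t8_48 = true := treeOK_nd (by decide +kernel) c8_46 c8_47
theorem c8_49 : treeOK 20 mem8 t8_49 = true := by decide +kernel
theorem c8_50 : treeOK 20 mem8 t8_50 = true := by decide +kernel
theorem c8_51 : treeOK 20 mem8 t8_51 = true := treeOK_nd (by decide +kernel) c8_49 c8_50
theorem c8_52 : treeOK 20 mem8 t8_52 = true := treeOK_nd (by decide +kernel) c8_48 c8_51
theorem c8_53 : treeOK 20 mem8 t8_53 = true := by decide +kernel
theorem c8_54 : treeOK 20 mem8 t8_54 = true := by decide +kernel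
theorem c8_55 : treeOK 20 mem8 t8_55 = true := treeOK_nd (by decide +kernel) c8_53 c8_54
theorem c8_56 : treeOK 20 mem8 t8_56 = true := by decide +kernel
theorem c8_57 : treeOK 20 mem8 t8_57 = true := by decide +kernel
theorem c8_58 : treeOK 20 mem8 t8_58 = true := treeOK_nd (by decide +kernel) c8_56 c8_57
theorem c8_59 : treeOK 20 mem8 t8_59 = true := treeOK_nd (by decide +kernel) c8_55 c8_58
theorem c8_60 : treeOK 20 mem8 t8_60 = true := treeOK_nd (by decide +kernel) c8_52 c8_59
theorem c8_61 : treeOK 20 mem8 t8_61 = true := treeOK_nd (by decide +kernel) c8_45 c8_60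
theorem c8_62 : treeOK 20 mem8 t8_62 = true := treeOK_nd (by decide +kernel) c8_30 c8_61

theorem chk8 : treeOK 20 mem8 tab8 = true := c8_62

end Pool.Agent.X68.TF
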