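import Mathlib.Data.Nat.Notation

/-! Toads and Frogs: boards, their base-three codes and a checker for tables of positions. -/

set_option autoImplicit false

namespace Pool.Agent.X68.TF

/-- a square of the strip: empty, toad, frog -/
inductive Cell : Type
  | E | T | F

open Cell

def dg : Cell → ℕ
  | E => 0
  | T => 1
  | F => 2

/-- base-three code of a board -/
def code : List Cell → ℕ
  | [] => 0
  | x :: t => dg x + 3 * code t

/-- tables: search trees of keys `2 * code b + m` with the replies to all Right moves -/
inductive Tr : Type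
  | lf : Tr
  | nd (l : Tr) (k : ℕ) (reps : List ℕ) (r : Tr) : Tr

/-- search in a tree -/
def memT (k : ℕ) : Tr → Bool
  | .lf => false
  | .nd l k' _ r => bif Nat.beq k k' then true else bif Nat.ble k k' then memT k l else memT k r

/-- check one reply: `r = 2 j` is the slide, `r = 2 j + 1` the jump of the toad at index `j` -/
def repOK (mem : ℕ → Bool) (n m c r : ℕ) : Bool :=
  bif Nat.beq (r % 2) 0 then
    Nat.ble (r / 2 + 2) n && (Nat.beq (c / 3 ^ (r / 2) % 9) 1 && mem (2 * (c + 2 * 3 ^ (r / 2)) + m))
  else
    Nat.ble (r / 2 + 3) n && (Nat.beq (c / 3 ^ (r / 2) % 27) 7 && mem (2 * (c + 8 * 3 ^ (r / 2)) + m))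

/-- check the replies to all moves of frogs; `C` is the code of the board, `c = C / p`, and `p` is
a power of three -/
def loop (mem : ℕ → Bool) (n m C : ℕ) : ℕ → ℕ → ℕ → List ℕ → Bool
  | 0, _, _, _ => true
  | f + 1, c, p, reps =>
    bif Nat.beq (c % 9) 6 then
      match reps with
      | [] => false
      | r :: rs => repOK mem n m (C - 4 * p) r && loop mem n m C f (c / 3) (3 * p) rs
    else bif Nat.beq (c % 27) 21 then
      match reps with
      | [] => false
      | r :: rs => repOK mem n m (C - 16 * p) r && loop mem n m C f (c / 3) (3 * p) rs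
    else loop mem n m C f (c / 3) (3 * p) reps

/-- check one node; for `m = 1` the first reply is the one to the move in the summand `-1` -/
def nodeOK (n : ℕ) (mem : ℕ → Bool) (k : ℕ) (reps : List ℕ) : Bool :=
  bif Nat.beq (k % 2) 0 then loop mem n 0 (k / 2) n (k / 2) 1 reps
  else
    match reps with
    | [] => false
    | r :: rs => repOK mem n 0 (k / 2) r && loop mem n 1 (k / 2) n (k / 2) 1 rs

/-- check a whole tree -/
def treeOK (n : ℕ) (mem : ℕ → Bool) : Tr → Bool
  | .lf => true
  | .nd l k reps r => nodeOK n mem k reps && (treeOK n mem l && treeOK n mem r)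

theorem treeOK_nd {n : ℕ} {mem : ℕ → Bool} {l r : Tr} {k : ℕ} {reps : List ℕ}
    (h : nodeOK n mem k reps = true) (hl : treeOK n mem l = true) (hr : treeOK n mem r = true) :
    treeOK n mem (.nd l k reps r) = true := by
  rw [treeOK, h, hl, hr]; rfl

end Pool.Agent.X68.TF
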